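import Pool.Agent.PatSturm.Final

/-!
# Classification of the recurrent pattern Sturmian sequences

The definitions (`patternComplexity`, `Recurrent`, `PatternSturmian`, their single-sided versions,
and the two explicit classes `IntervalCoding` and `ArcToeplitz`) are in
`Pool/Agent/PatSturm/Statement.lean`.
-/

set_option autoImplicit false

namespace Pool.Agent.Results.MP_2825c1_co.Classification

open Pool.Agent.PatSturm.Statement

/-- **All recurrent pattern Sturmian sequences.** A double-sided sequence is recurrent and pattern
Sturmian iff, after naming its two letters, it is a coding of an irrational rotation by an interval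
or an arc-Toeplitz sequence; a single-sided sequence is recurrent and pattern Sturmian iff it is
the restriction of such a sequence to the positive integers. -/
theorem result :
    (∀ {A : Type} (x : ℤ → A), (Recurrent x ∧ PatternSturmian x) ↔
      ∃ (p q : A) (X : ℤ → Bool), p ≠ q ∧ (IntervalCoding X ∨ ArcToeplitz X) ∧
        ∀ m : ℤ, x m = if X m = true then p else q) ∧
    (∀ {A : Type} (x : ℕ → A), (Recurrent₁ x ∧ PatternSturmian₁ x) ↔
      ∃ (p q : A) (X : ℤ → Bool), p ≠ q ∧ (IntervalCoding X ∨ ArcToeplitz X) ∧
        ∀ m : ℕ, 1 ≤ m → x m = if X m = true then p else q) :=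
  Pool.Agent.PatSturm.Final.full_result Pool.Agent.PatSturm.Final.main_holds

end Pool.Agent.Results.MP_2825c1_co.Classification
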